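import Mathlib
import Pool.Agent.H742R3.Mat4

set_option autoImplicit false
set_option linter.unusedSectionVars false

/-!
# Classes of order five in the homology of matching complexes: passing from `n` to `n + 2`
-/

namespace Pool.Agent.N361.MT

open Finset Pool.Agent.H742R3.Mat

section maps
variable {V V' V'' : Type}

/-- algebra map induced by a map of vertices -/
noncomputable def G2 (g : V → V') : Ext V →ₐ[ℤ] Ext V' :=
  ExteriorAlgebra.map (Finsupp.lmapDomain ℤ ℤ g)

lemma G2_gen (g : V → V') (v : V) : G2 g (gen v) = gen (g v) := by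
  simp [G2, gen]

lemma G2_simplex (g : V → V') (l : List V) : G2 g (simplex l) = simplex (l.map g) := by
  induction l with
  | nil => simp
  | cons v l ih => rw [simplex_cons, map_mul, G2_gen, ih, List.map_cons, simplex_cons]

lemma bd_G2 (g : V → V') (x : Ext V) : bd (G2 g x) = G2 g (bd x) := by
  induction x using CliffordAlgebra.left_induction with
  | algebraMap r =>
    have h1 : bd (algebraMap ℤ (Ext V) r) = 0 := by
      unfold bd
      exact CliffordAlgebra.contractLeft_algebraMap _ _ _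
    have h1' : bd (algebraMap ℤ (Ext V') r) = 0 := by
      unfold bd
      exact CliffordAlgebra.contractLeft_algebraMap _ _ _
    have h2 : G2 g (algebraMap ℤ (Ext V) r) = algebraMap ℤ (Ext V') r := AlgHom.commutes _ _
    have h3 : (algebraMap ℤ (CliffordAlgebra (0 : QuadraticForm ℤ (V →₀ ℤ))) r) =
        algebraMap ℤ (Ext V) r := rfl
    rw [h3, h2, h1, h1', map_zero]
  | add x y hx hy => rw [map_add, map_add, map_add, map_add, hx, hy]
  | ι_mul x m hx =>
    have e1 : G2 g (CliffordAlgebra.ι (0 : QuadraticForm ℤ (V →₀ ℤ)) m * x) =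
        CliffordAlgebra.ι (0 : QuadraticForm ℤ (V' →₀ ℤ)) (Finsupp.lmapDomain ℤ ℤ g m) *
          G2 g x := by
      rw [map_mul]
      congr 1
      exact ExteriorAlgebra.map_apply_ι _ _
    have e2 : ∀ (U : Type) (m : U →₀ ℤ) (y : Ext U),
        bd (CliffordAlgebra.ι (0 : QuadraticForm ℤ (U →₀ ℤ)) m * y) =
        (Finsupp.linearCombination ℤ (fun _ : U => (1 : ℤ)) m) • y -
        CliffordAlgebra.ι (0 : QuadraticForm ℤ (U →₀ ℤ)) m * bd y := by
      intro U m y
      unfold bd
      exact CliffordAlgebra.contractLeft_ι_mul _ _ _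
    rw [e1, e2, e2, hx, map_sub, map_smul]
    congr 1
    · congr 1
      rw [Finsupp.lmapDomain_apply, Finsupp.linearCombination_mapDomain]
      rfl
    · rw [map_mul]
      congr 1
      exact (ExteriorAlgebra.map_apply_ι _ _).symm

lemma G2_comp (g : V → V') (h : V' → V'') (x : Ext V) : G2 h (G2 g x) = G2 (h ∘ g) x := by
  have e : (G2 h).comp (G2 g) = G2 (h ∘ g) := by
    unfold G2
    rw [ExteriorAlgebra.map_comp_map, ← Finsupp.lmapDomain_comp]
  exact AlgHom.congr_fun e x

lemma G2_id (x : Ext V) : G2 (id : V → V) x = x := by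
  unfold G2
  rw [Finsupp.lmapDomain_id, ExteriorAlgebra.map_id]
  rfl

end maps

section ML
variable {α β : Type} [DecidableEq α] [DecidableEq β]

/-- the chains of the matching complex of `W` in dimension `d`, in the exterior algebra -/
noncomputable def CM (W : Finset α) (d : ℤ) : Submodule ℤ (Ext (Finset α)) :=
  spn (fun l => ML W l ∧ (l.length : ℤ) = d + 1)

/-- the homology of the matching complex of `W` in dimension `d` has a class of order five -/
def P5 (W : Finset α) (d : ℤ) : Prop :=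
  ∃ z ∈ CM W d, bd z = 0 ∧ (∃ w ∈ CM W (d + 1), bd w = (5 : ℤ) • z) ∧
    ∀ y ∈ CM W (d + 1), bd y ≠ z

lemma spn_map {V' : Type} {P : List (Finset α) → Prop} (g : Finset α → V')
    (S : Submodule ℤ (Ext V')) (h : ∀ l, P l → simplex (l.map g) ∈ S)
    {z : Ext (Finset α)} (hz : z ∈ spn P) : G2 g z ∈ S := by
  have : spn P ≤ S.comap (G2 g).toLinearMap := by
    unfold spn
    rw [Submodule.span_le]
    rintro _ ⟨l, hl, rfl⟩
    show G2 g (simplex l) ∈ S
    rw [G2_simplex]
    exact h l hl
  exact this hz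

/-- transport along an embedding of the ground sets -/
theorem P5_map (ι : α ↪ β) {W : Finset α} {d : ℤ} (h : P5 W d) : P5 (W.map ι) d := by
  obtain ⟨z, hz, hbz, ⟨w, hw, hbw⟩, hy⟩ := h
  let g : Finset α → Finset β := fun e => e.map ι
  let g' : Finset β → Finset α := fun e => e.preimage ι ι.injective.injOn
  have hgg : g' ∘ g = id := by
    funext e
    ext x
    simp [g, g']
  have hmap : ∀ k : ℤ, ∀ x ∈ CM W k, G2 g x ∈ CM (W.map ι) k := by
    intro k x hx
    refine spn_map g _ ?_ hx
    rintro l ⟨⟨h1, h2⟩, h3⟩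
    refine mem_spn ⟨⟨?_, ?_⟩, ?_⟩
    · intro e he
      rw [List.mem_map] at he
      obtain ⟨e', he', rfl⟩ := he
      exact ⟨by rw [card_map]; exact (h1 e' he').1, map_subset_map.2 (h1 e' he').2⟩
    · rw [List.pairwise_map]
      refine h2.imp ?_
      intro a b hab
      exact (disjoint_map ι).2 hab
    · rw [List.length_map]; exact h3
  have hmap' : ∀ k : ℤ, ∀ x ∈ CM (W.map ι) k, G2 g' x ∈ CM W k := by
    intro k x hx
    refine spn_map g' _ ?_ hx
    rintro l ⟨⟨h1, h2⟩, h3⟩
    have key : ∀ e ∈ l, ∃ e' : Finset α, e' ⊆ W ∧ e = e'.map ι := by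
      intro e he
      refine ⟨g' e, ?_, ?_⟩
      · intro x hx
        have h4 := (h1 e he).2 (mem_preimage.1 hx)
        rw [mem_map] at h4
        obtain ⟨y, hy, hxy⟩ := h4
        exact ι.injective hxy ▸ hy
      · ext y
        rw [mem_map]
        constructor
        · intro hy
          obtain ⟨x, hx, rfl⟩ := mem_map.1 ((h1 e he).2 hy)
          exact ⟨x, mem_preimage.2 hy, rfl⟩
        · rintro ⟨x, hx, rfl⟩
          exact mem_preimage.1 hx
    have hg' : ∀ e' : Finset α, g' (e'.map ι) = e' := fun e' => congrFun hgg e'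
    refine mem_spn ⟨⟨?_, ?_⟩, ?_⟩
    · intro e he
      rw [List.mem_map] at he
      obtain ⟨e1, he1, rfl⟩ := he
      obtain ⟨e2, h5, rfl⟩ := key e1 he1
      rw [hg']
      refine ⟨?_, h5⟩
      have := (h1 _ he1).1
      rwa [card_map] at this
    · rw [List.pairwise_map]
      have h2' : l.Pairwise (fun a b => a ∈ l ∧ b ∈ l ∧ Disjoint a b) := by
        rw [List.pairwise_iff_forall_sublist] at h2 ⊢
        intro a b hab
        exact ⟨hab.subset (by simp), hab.subset (by simp), h2 hab⟩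
      refine h2'.imp ?_
      rintro a b ⟨ha, hb, hab⟩
      obtain ⟨a', _, rfl⟩ := key a ha
      obtain ⟨b', _, rfl⟩ := key b hb
      rw [hg', hg']
      exact (disjoint_map ι).1 hab
    · rw [List.length_map]; exact h3
  have hgz : ∀ x, G2 g' (G2 g x) = x := by
    intro x
    rw [G2_comp, hgg, G2_id]
  refine ⟨G2 g z, hmap _ _ hz, by rw [bd_G2, hbz, map_zero],
    ⟨G2 g w, hmap _ _ hw, by rw [bd_G2, hbw, map_smul]⟩, ?_⟩
  intro y hy' he
  refine hy (G2 g' y) (hmap' _ _ hy') ?_
  rw [bd_G2, he, hgz]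

end ML

section hom
variable {α : Type} [DecidableEq α] [lo : LinearOrder (Finset α)]

/-- a class of order five in the homology -/
def Q5 (K : Set (Finset (Finset α))) (d : ℤ) : Prop :=
  ∃ x : Homology K d, x ≠ 0 ∧ (5 : ℤ) • x = 0

lemma mem_CM (W : Finset α) (d : ℤ) (z : Ch (Finset α)) :
    z ∈ chains (matchings W) d ↔ toExt z ∈ CM W d := by
  rw [mem_chains_iff, chE_matchings]
  rfl

lemma mem_cyc (W : Finset α) (d : ℤ) (z : Ch (Finset α)) :
    z ∈ cycles (matchings W) d ↔ toExt z ∈ CM W d ∧ bd (toExt z) = 0 := by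
  unfold cycles
  rw [Submodule.mem_inf, mem_CM, LinearMap.mem_ker]
  refine and_congr_right (fun _ => ?_)
  rw [← toExt_bdry]
  exact (LinearEquiv.map_eq_zero_iff _).symm

lemma mem_bds (W : Finset α) (d : ℤ) (z : Ch (Finset α)) :
    z ∈ boundaries (matchings W) d ↔ ∃ y ∈ CM W (d + 1), bd y = toExt z := by
  unfold boundaries
  rw [Submodule.mem_map]
  constructor
  · rintro ⟨y, hy, rfl⟩
    exact ⟨toExt y, (mem_CM W _ y).1 hy, (toExt_bdry y).symm⟩
  · rintro ⟨y, hy, h⟩
    refine ⟨toExt.symm y, ?_, ?_⟩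
    · rw [mem_CM, LinearEquiv.apply_symm_apply]; exact hy
    · apply (toExt (V := Finset α)).injective
      rw [toExt_bdry, LinearEquiv.apply_symm_apply, h]

lemma Q5_iff (W : Finset α) (d : ℤ) : Q5 (matchings W) d ↔ P5 W d := by
  constructor
  · rintro ⟨x, hx, h5⟩
    obtain ⟨⟨z, hz⟩, rfl⟩ := Submodule.Quotient.mk_surjective _ x
    have h1 := (mem_cyc W d z).1 hz
    rw [ne_eq, Submodule.Quotient.mk_eq_zero] at hx
    rw [← Submodule.Quotient.mk_smul, Submodule.Quotient.mk_eq_zero] at h5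
    have h5' : (5 : ℤ) • z ∈ boundaries (matchings W) d := h5
    have hx' : ¬ z ∈ boundaries (matchings W) d := hx
    rw [mem_bds] at h5' hx'
    push Not at hx'
    refine ⟨toExt z, h1.1, h1.2, ?_, hx'⟩
    obtain ⟨w, hw, hbw⟩ := h5'
    exact ⟨w, hw, by rw [hbw, map_smul]⟩
  · rintro ⟨z, hz, hbz, ⟨w, hw, hbw⟩, hy⟩
    have hz' : toExt.symm z ∈ cycles (matchings W) d := by
      rw [mem_cyc, LinearEquiv.apply_symm_apply]; exact ⟨hz, hbz⟩
    refine ⟨Submodule.Quotient.mk ⟨toExt.symm z, hz'⟩, ?_, ?_⟩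
    · rw [ne_eq, Submodule.Quotient.mk_eq_zero]
      intro h
      have h' : toExt.symm z ∈ boundaries (matchings W) d := h
      rw [mem_bds, LinearEquiv.apply_symm_apply] at h'
      obtain ⟨y, hy1, hy2⟩ := h'
      exact hy y hy1 hy2
    · rw [← Submodule.Quotient.mk_smul, Submodule.Quotient.mk_eq_zero]
      have h' : (5 : ℤ) • toExt.symm z ∈ boundaries (matchings W) d := by
        rw [mem_bds, map_smul, LinearEquiv.apply_symm_apply]
        exact ⟨w, hw, hbw⟩
      exact h'

end hom

/-- **From `n` to `n + 2`.** -/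
theorem P5_step (n : ℕ) (hn : 1 ≤ n) (d : ℤ) (h : P5 (univ : Finset (Fin n)) d) :
    P5 (univ : Finset (Fin (n + 2))) (d + 1) := by
  classical
  obtain ⟨lo⟩ : Nonempty (LinearOrder (Finset (Fin (n + 2)))) :=
    ⟨LinearOrder.lift' (Fintype.equivFin (Finset (Fin (n + 2)))) (Equiv.injective _)⟩
  let a : Fin (n + 2) := ⟨n, by omega⟩
  let b : Fin (n + 2) := ⟨n + 1, by omega⟩
  have hab : a ≠ b := by
    intro e
    have := congrArg Fin.val e
    simp only [a, b] at this
    omega
  obtain ⟨h1, h2⟩ := main2 (n + 2) (by omega) a b hab (d + 1)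
  have e1 : (univ : Finset (Fin n)).map (Fin.castLEEmb (by omega : n ≤ n + 2)) = univ \ {a, b} := by
    ext x
    rw [mem_map, mem_sdiff, mem_insert, mem_singleton]
    constructor
    · rintro ⟨y, -, rfl⟩
      refine ⟨mem_univ _, ?_⟩
      have hy := y.2
      rintro (h | h)
      · have := congrArg Fin.val h
        simp only [a, Fin.coe_castLEEmb, Fin.val_castLE] at this
        omega
      · have := congrArg Fin.val h
        simp only [b, Fin.coe_castLEEmb, Fin.val_castLE] at this
        omega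
    · rintro ⟨-, hx⟩
      have hx2 := x.2
      have hxa : (x : ℕ) ≠ n := fun e => hx (Or.inl (Fin.ext e))
      have hxb : (x : ℕ) ≠ n + 1 := fun e => hx (Or.inr (Fin.ext e))
      exact ⟨⟨x, by omega⟩, mem_univ _, Fin.ext rfl⟩
  have h3 : P5 (univ \ {a, b} : Finset (Fin (n + 2))) d := by
    rw [← e1]
    exact P5_map _ h
  have h4 : Q5 (link (Mn (n + 2)) ({a, b} : Finset (Fin (n + 2)))) (d + 1 - 1) := by
    rw [h1, add_sub_cancel_right]
    exact (Q5_iff _ _).2 h3
  have h5 : Q5 (Mn (n + 2)) (d + 1) := by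
    obtain ⟨x, hx, h5x⟩ := h4
    obtain ⟨-, -, -, Φ, -, hΦ⟩ := h2
    refine ⟨Φ (0, x), ?_, ?_⟩
    · intro h0
      have := (LinearEquiv.map_eq_zero_iff Φ).1 h0
      exact hx (Prod.ext_iff.1 this).2
    · rw [← map_smul, Prod.smul_mk, smul_zero, h5x]
      exact map_zero Φ
  exact (Q5_iff _ _).1 h5

end Pool.Agent.N361.MT
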