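import Mathlib
import Pool.Agent.N361.MT.Gen
import Pool.Agent.H933R3.Bits

set_option autoImplicit false
set_option linter.unusedSectionVars false

/-!
# The group `(ℤ/2)^7` acting on the 14 vertices, and the quotient by it
-/

namespace Pool.Agent.N361.MT

open Finset Pool.Agent.H742R3.Mat

/-- the fibre map `14 → 7` -/
def rr (x : Fin 14) : Fin 7 := ⟨(x : ℕ) % 7, Nat.mod_lt _ (by norm_num)⟩

/-- the involution exchanging the two points of each fibre -/
def sg (x : Fin 14) : Fin 14 := ⟨((x : ℕ) + 7) % 14, Nat.mod_lt _ (by norm_num)⟩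

theorem rr_sg : ∀ x, rr (sg x) = rr x := by decide
theorem sg_sg : ∀ x, sg (sg x) = x := by decide
theorem sg_ne : ∀ x, sg x ≠ x := by decide
theorem fib : ∀ x y, rr x = rr y → y = x ∨ y = sg x := by decide

/-- exchange the two points of the fibres over the `i` with `k i = true` -/
def pf (k : Fin 7 → Bool) (x : Fin 14) : Fin 14 := if k (rr x) = true then sg x else x

theorem rr_pf (k : Fin 7 → Bool) (x : Fin 14) : rr (pf k x) = rr x := by
  unfold pf
  split_ifs
  · exact rr_sg x
  · rfl

theorem pf_pf (h k : Fin 7 → Bool) (x : Fin 14) :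
    pf h (pf k x) = pf (fun i => xor (h i) (k i)) x := by
  unfold pf
  cases hk : k (rr x)
  · simp [hk]
  · cases hh : h (rr x)
    · simp [hk, hh, rr_sg]
    · simp [hk, hh, rr_sg, sg_sg]

theorem pf_inv (k : Fin 7 → Bool) (x : Fin 14) : pf k (pf k x) = x := by
  rw [pf_pf]
  unfold pf
  simp

/-- the permutation -/
def pe (k : Fin 7 → Bool) : Equiv.Perm (Fin 14) := ⟨pf k, pf k, pf_inv k, pf_inv k⟩

/-- the action on sets of vertices -/
def fl (k : Fin 7 → Bool) (e : Finset (Fin 14)) : Finset (Fin 14) := e.map (pe k).toEmbedding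

theorem mem_fl {k : Fin 7 → Bool} {e : Finset (Fin 14)} {x : Fin 14} :
    x ∈ fl k e ↔ pf k x ∈ e := by
  unfold fl
  rw [mem_map_equiv]
  rfl

theorem fl_fl (h k : Fin 7 → Bool) (e : Finset (Fin 14)) :
    fl h (fl k e) = fl (fun i => xor (h i) (k i)) e := by
  ext x
  rw [mem_fl, mem_fl, mem_fl, pf_pf]
  have : (fun i => xor (k i) (h i)) = fun i => xor (h i) (k i) := by
    funext i; exact Bool.xor_comm _ _
  rw [this]

/-- the type of an edge: the bit mask of its image in the seven fibres -/
def idx (e : Finset (Fin 14)) : ℕ := Pool.Agent.H933R3.enc (e.image rr)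

theorem idx_fl (k : Fin 7 → Bool) (e : Finset (Fin 14)) : idx (fl k e) = idx e := by
  unfold idx
  congr 1
  ext i
  rw [mem_image, mem_image]
  constructor
  · rintro ⟨x, hx, rfl⟩
    exact ⟨pf k x, mem_fl.1 hx, rr_pf k x⟩
  · rintro ⟨x, hx, rfl⟩
    exact ⟨pf k x, mem_fl.2 (by rw [pf_inv]; exact hx), rr_pf k x⟩

/-- the norm -/
noncomputable def NN (x : Ext (Finset (Fin 14))) : Ext (Finset (Fin 14)) :=
  ∑ k : Fin 7 → Bool, G2 (fl k) x

/-- the norm as a linear map -/
noncomputable def NL : Ext (Finset (Fin 14)) →ₗ[ℤ] Ext (Finset (Fin 14)) :=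
  ∑ k : Fin 7 → Bool, (G2 (fl k)).toLinearMap

theorem NL_apply (x : Ext (Finset (Fin 14))) : NL x = NN x := by
  unfold NL NN
  rw [LinearMap.sum_apply]
  rfl

theorem bd_NL (x : Ext (Finset (Fin 14))) : bd (NL x) = NL (bd x) := by
  rw [NL_apply, NL_apply]
  unfold NN
  rw [map_sum]
  exact sum_congr rfl fun k _ => bd_G2 _ _

/-- adding `k` as a permutation of the group -/
def xk (k : Fin 7 → Bool) : (Fin 7 → Bool) ≃ (Fin 7 → Bool) where
  toFun h := fun i => xor (h i) (k i)
  invFun h := fun i => xor (h i) (k i)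
  left_inv h := by funext i; simp
  right_inv h := by funext i; simp

theorem NL_fl (k : Fin 7 → Bool) (x : Ext (Finset (Fin 14))) : NL (G2 (fl k) x) = NL x := by
  rw [NL_apply, NL_apply]
  unfold NN
  rw [← Equiv.sum_comp (xk k) (fun h => G2 (fl h) x)]
  refine sum_congr rfl fun h _ => ?_
  rw [G2_comp]
  have e : (fl h ∘ fl k) = fl ((xk k) h) := by
    funext e
    exact fl_fl h k e
  rw [e]

/-! ### two matchings of the same type are conjugate -/

/-- for one fibre, either all pairs agree or all pairs are exchanged -/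
theorem fibre_dich (a b : Fin 14) (Z : List (Finset (Fin 14) × Finset (Fin 14)))
    (h1 : Z.Pairwise (fun x y => Disjoint x.1 y.1 ∧ Disjoint x.2 y.2))
    (h2 : ∀ x ∈ Z, ((a ∈ x.1 ↔ a ∈ x.2) ∧ (b ∈ x.1 ↔ b ∈ x.2)) ∨
      ((a ∈ x.1 ↔ b ∈ x.2) ∧ (b ∈ x.1 ↔ a ∈ x.2))) :
    (∀ x ∈ Z, (a ∈ x.1 ↔ a ∈ x.2) ∧ (b ∈ x.1 ↔ b ∈ x.2)) ∨
      (∀ x ∈ Z, (a ∈ x.1 ↔ b ∈ x.2) ∧ (b ∈ x.1 ↔ a ∈ x.2)) := by
  induction Z with
  | nil => exact Or.inl (fun x hx => absurd hx (by simp))
  | cons z Z ih =>
    rw [List.pairwise_cons] at h1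
    have hz := h2 z (by simp)
    have h2' : ∀ x ∈ Z, _ := fun x hx => h2 x (List.mem_cons_of_mem _ hx)
    have hd : ∀ x ∈ Z, ∀ c, (c ∈ z.1 → c ∉ x.1) ∧ (c ∈ z.2 → c ∉ x.2) := fun x hx c =>
      ⟨fun h => Finset.disjoint_left.1 (h1.1 x hx).1 h, fun h =>
        Finset.disjoint_left.1 (h1.1 x hx).2 h⟩
    by_cases hab : a ∈ z.1 ↔ b ∈ z.1
    · rcases ih h1.2 h2' with h | h
      · left
        intro x hx
        rcases List.mem_cons.1 hx with rfl | hx
        · tauto
        · exact h x hx
      · right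
        intro x hx
        rcases List.mem_cons.1 hx with rfl | hx
        · tauto
        · exact h x hx
    · rcases hz with hz | hz
      · left
        intro x hx
        rcases List.mem_cons.1 hx with rfl | hx
        · exact hz
        · have ha := hd x hx a
          have hb := hd x hx b
          rcases h2' x hx with h | h
          · exact h
          · rcases Classical.em (a ∈ z.1) with q | q
            · have r1 := ha.1 q
              have r2 := ha.2 (hz.1.1 q)
              exact ⟨iff_of_false r1 r2,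
                iff_of_false (fun h' => r2 (h.2.1 h')) (fun h' => r1 (h.1.2 h'))⟩
            · have q1 : b ∈ z.1 := by
                by_contra h'
                exact hab (iff_of_false q h')
              have r1 := hb.1 q1
              have r2 := hb.2 (hz.2.1 q1)
              exact ⟨iff_of_false (fun h' => r2 (h.1.1 h')) (fun h' => r1 (h.2.2 h')),
                iff_of_false r1 r2⟩
      · right
        intro x hx
        rcases List.mem_cons.1 hx with rfl | hx
        · exact hz
        · have ha := hd x hx a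
          have hb := hd x hx b
          rcases h2' x hx with h | h
          swap
          · exact h
          · rcases Classical.em (a ∈ z.1) with q | q
            · have r1 := ha.1 q
              have r2 := hb.2 (hz.1.1 q)
              exact ⟨iff_of_false r1 r2,
                iff_of_false (fun h' => r2 (h.2.1 h')) (fun h' => r1 (h.1.2 h'))⟩
            · have q1 : b ∈ z.1 := by
                by_contra h'
                exact hab (iff_of_false q h')
              have r1 := hb.1 q1
              have r2 := ha.2 (hz.2.1 q1)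
              exact ⟨iff_of_false (fun h' => r2 (h.1.1 h')) (fun h' => r1 (h.2.2 h')),
                iff_of_false r1 r2⟩

/-- the number of elements of `e` over `i` -/
def cnt (i : Fin 7) (e : Finset (Fin 14)) : ℕ := (e.filter (fun y => rr y = i)).card

/-- the number of half-edges at `i` of a type -/
def dg (i : Fin 7) (t : Finset (Fin 7)) : ℕ :=
  if i ∈ t then (if t.card = 1 then 2 else 1) else 0

theorem cnt_pair : ∀ a b : Fin 14, a ≠ b → ∀ i : Fin 7,
    cnt i {a, b} = dg i (({a, b} : Finset (Fin 14)).image rr) := by decide +kernel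

theorem cnt_of_card {e : Finset (Fin 14)} (he : e.card = 2) (i : Fin 7) :
    cnt i e = dg i (e.image rr) := by
  obtain ⟨a, b, hab, rfl⟩ := card_eq_two.1 he
  exact cnt_pair a b hab i

theorem cnt_eq (x : Fin 14) (e : Finset (Fin 14)) :
    cnt (rr x) e = (if x ∈ e then 1 else 0) + (if sg x ∈ e then 1 else 0) := by
  have h : e.filter (fun y => rr y = rr x) = ({x, sg x} : Finset (Fin 14)).filter (· ∈ e) := by
    ext y
    rw [mem_filter, mem_filter, mem_insert, mem_singleton]
    constructor
    · rintro ⟨h1, h2⟩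
      exact ⟨fib x y h2.symm, h1⟩
    · rintro ⟨h1 | h1, h2⟩
      · subst h1; exact ⟨h2, rfl⟩
      · subst h1; exact ⟨h2, rr_sg x⟩
  unfold cnt
  rw [h, filter_insert, filter_singleton]
  have hne : x ≠ sg x := fun e => sg_ne x e.symm
  split_ifs <;> simp [hne]

theorem pair_dich {e e' : Finset (Fin 14)} (he : e.card = 2) (he' : e'.card = 2)
    (h : idx e = idx e') (x : Fin 14) :
    ((x ∈ e ↔ x ∈ e') ∧ (sg x ∈ e ↔ sg x ∈ e')) ∨
      ((x ∈ e ↔ sg x ∈ e') ∧ (sg x ∈ e ↔ x ∈ e')) := by
  have h1 : e.image rr = e'.image rr := Pool.Agent.H933R3.enc_injective h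
  have h2 : cnt (rr x) e = cnt (rr x) e' := by
    rw [cnt_of_card he, cnt_of_card he', h1]
  rw [cnt_eq, cnt_eq] at h2
  by_cases a1 : x ∈ e <;> by_cases a2 : sg x ∈ e <;> by_cases a3 : x ∈ e' <;>
    by_cases a4 : sg x ∈ e' <;> simp_all

theorem exists_flip (Z : List (Finset (Fin 14) × Finset (Fin 14)))
    (h1 : Z.Pairwise (fun x y => Disjoint x.1 y.1 ∧ Disjoint x.2 y.2))
    (h2 : ∀ x ∈ Z, x.1.card = 2 ∧ x.2.card = 2 ∧ idx x.1 = idx x.2) :
    ∃ k : Fin 7 → Bool, ∀ x ∈ Z, x.2 = fl k x.1 := by
  classical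
  have hd : ∀ i : Fin 7, ∀ a : Fin 14, rr a = i →
      (∀ x ∈ Z, (a ∈ x.1 ↔ a ∈ x.2) ∧ (sg a ∈ x.1 ↔ sg a ∈ x.2)) ∨
      (∀ x ∈ Z, (a ∈ x.1 ↔ sg a ∈ x.2) ∧ (sg a ∈ x.1 ↔ a ∈ x.2)) := by
    intro i a _
    exact fibre_dich a (sg a) Z h1 (fun x hx => pair_dich (h2 x hx).1 (h2 x hx).2.1 (h2 x hx).2.2 a)
  let lift : Fin 7 → Fin 14 := fun i => ⟨i, by omega⟩
  have hl : ∀ i, rr (lift i) = i := by decide
  let P : Fin 7 → Prop := fun i => ∀ x ∈ Z, (lift i ∈ x.1 ↔ lift i ∈ x.2) ∧
    (sg (lift i) ∈ x.1 ↔ sg (lift i) ∈ x.2)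
  refine ⟨fun i => if P i then false else true, ?_⟩
  intro x hx
  ext y
  rw [mem_fl]
  unfold pf
  have hy := fib (lift (rr y)) y (hl (rr y))
  by_cases hP : P (rr y)
  · simp only [hP, if_true, Bool.false_eq_true, if_false]
    have h3 := hP x hx
    rcases hy with h | h
    · rw [h]; exact h3.1.symm
    · rw [h]; exact h3.2.symm
  · simp only [hP, if_false, if_true]
    have h3 := (hd (rr y) (lift (rr y)) (hl _)).resolve_left hP x hx
    rcases hy with h | h
    · rw [h]; exact h3.2.symm
    · rw [h, sg_sg]; exact h3.1.symm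

/-- **Two matchings with the same types have the same norm.** -/
theorem NL_eq {l l' : List (Finset (Fin 14))} (h : ML univ l) (h' : ML univ l')
    (ht : l.map idx = l'.map idx) : NL (simplex l) = NL (simplex l') := by
  have hlen : l.length = l'.length := by
    have := congrArg List.length ht
    rwa [List.length_map, List.length_map] at this
  have f1 : (l.zip l').map Prod.fst = l := List.map_fst_zip hlen.le
  have f2 : (l.zip l').map Prod.snd = l' := List.map_snd_zip hlen.ge
  have p1 : (l.zip l').Pairwise (fun x y => Disjoint x.1 y.1) := by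
    have := h.2
    rw [← f1, List.pairwise_map] at this
    exact this
  have p2 : (l.zip l').Pairwise (fun x y => Disjoint x.2 y.2) := by
    have := h'.2
    rw [← f2, List.pairwise_map] at this
    exact this
  have hidx : ∀ x ∈ l.zip l', idx x.1 = idx x.2 := by
    have e : (l.zip l').map (fun x => idx x.1) = (l.zip l').map (fun x => idx x.2) := by
      have e1 : (l.zip l').map (fun x => idx x.1) = l.map idx := by
        conv_rhs => rw [← f1]
        rw [List.map_map]; rfl
      have e2 : (l.zip l').map (fun x => idx x.2) = l'.map idx := by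
        conv_rhs => rw [← f2]
        rw [List.map_map]; rfl
      rw [e1, e2, ht]
    exact List.map_inj_left.1 e
  obtain ⟨k, hk⟩ := exists_flip (l.zip l') (p1.and p2) (by
    intro x hx
    refine ⟨(h.1 x.1 ?_).1, (h'.1 x.2 ?_).1, hidx x hx⟩
    · rw [← f1]; exact List.mem_map_of_mem hx
    · rw [← f2]; exact List.mem_map_of_mem hx)
  have e : l' = l.map (fl k) := by
    conv_lhs => rw [← f2]
    conv_rhs => rw [← f1]
    rw [List.map_map]
    exact List.map_inj_left.2 hk
  rw [e, ← G2_simplex, NL_fl]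

theorem ML_fl (k : Fin 7 → Bool) {l : List (Finset (Fin 14))} (h : ML univ l) :
    ML univ (l.map (fl k)) := by
  refine ⟨?_, ?_⟩
  · intro e he
    rw [List.mem_map] at he
    obtain ⟨e', he', rfl⟩ := he
    refine ⟨?_, subset_univ _⟩
    unfold fl
    rw [card_map]
    exact (h.1 e' he').1
  · rw [List.pairwise_map]
    refine h.2.imp ?_
    intro a b hab
    exact (disjoint_map _).2 hab

theorem NL_mem {d : ℤ} {l : List (Finset (Fin 14))} (h : ML univ l)
    (hd : (l.length : ℤ) = d + 1) : NL (simplex l) ∈ CM univ d := by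
  rw [NL_apply]
  unfold NN
  refine Submodule.sum_mem _ (fun k _ => ?_)
  rw [G2_simplex]
  exact mem_spn ⟨ML_fl k h, by rw [List.length_map]; exact hd⟩

/-- degree bound for the types of a matching -/
theorem deg_le {l : List (Finset (Fin 14))} (h : ML univ l) (i : Fin 7) :
    (l.map (fun e => dg i (e.image rr))).sum ≤ 2 := by
  have h1 : l.map (fun e => dg i (e.image rr)) = l.map (cnt i) := by
    refine List.map_inj_left.2 (fun e he => ?_)
    exact (cnt_of_card (h.1 e he).1 i).symm
  rw [h1]
  have key : ∀ (l : List (Finset (Fin 14))) (X : Finset (Fin 14)), l.Pairwise Disjoint →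
      (∀ e ∈ l, e ⊆ X) → (l.map (cnt i)).sum ≤ cnt i X := by
    intro l
    induction l with
    | nil => intro X _ _; simp
    | cons e l ih =>
      intro X hp hX
      rw [List.pairwise_cons] at hp
      rw [List.map_cons, List.sum_cons]
      have h2 := ih (X \ e) hp.2 (by
        intro f hf x hx
        rw [mem_sdiff]
        exact ⟨hX f (List.mem_cons_of_mem _ hf) hx, fun hxe =>
          Finset.disjoint_left.1 (hp.1 f hf) hxe hx⟩)
      have h3 : cnt i e + cnt i (X \ e) = cnt i X := by
        unfold cnt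
        rw [← card_union_of_disjoint]
        · congr 1
          rw [← filter_union, union_sdiff_of_subset (hX e (by simp))]
        · rw [Finset.disjoint_left]
          intro x hx hx'
          exact (mem_sdiff.1 (mem_filter.1 hx').1).2 (mem_filter.1 hx).1
      omega
  refine (key l univ h.2 (fun e _ => subset_univ e)).trans ?_
  have : ∀ i : Fin 7, cnt i univ ≤ 2 := by decide
  exact this i

end Pool.Agent.N361.MT
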