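import Mathlib
import Pool.Agent.N361.MT.Flip
import Pool.Agent.N361.MT.Data

set_option autoImplicit false
set_option linter.unusedSectionVars false

/-!
# Boundaries of lists, functionals, and the enumeration of types of matchings
-/

namespace Pool.Agent.N361.MT

open Finset Pool.Agent.H742R3.Mat

section bdT
variable {V V' : Type} {M M' : Type} [AddCommGroup M] [AddCommGroup M']

/-- the terms of the boundary of an ordered simplex -/
def bdT : List V → List (ℤ × List V)
  | [] => []
  | v :: l => (1, l) :: (bdT l).map (fun x => (-x.1, v :: x.2))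

/-- evaluation of a formal sum -/
def evT (F : List V → M) (T : List (ℤ × List V)) : M := (T.map (fun x => x.1 • F x.2)).sum

lemma evT_nil (F : List V → M) : evT F [] = 0 := rfl

lemma evT_cons (F : List V → M) (x : ℤ × List V) (T : List (ℤ × List V)) :
    evT F (x :: T) = x.1 • F x.2 + evT F T := rfl

lemma evT_append (F : List V → M) (S T : List (ℤ × List V)) :
    evT F (S ++ T) = evT F S + evT F T := by
  unfold evT
  rw [List.map_append, List.sum_append]

lemma evT_map (f : M →ₗ[ℤ] M') (F : List V → M) (T : List (ℤ × List V)) :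
    f (evT F T) = evT (fun l => f (F l)) T := by
  induction T with
  | nil => rw [evT_nil, evT_nil, map_zero]
  | cons x T ih => rw [evT_cons, evT_cons, map_add, map_smul, ih]

lemma evT_congr {F F' : List V → M} {T : List (ℤ × List V)} (h : ∀ x ∈ T, F x.2 = F' x.2) :
    evT F T = evT F' T := by
  unfold evT
  congr 1
  exact List.map_inj_left.2 (fun x hx => by rw [h x hx])

lemma evT_scale (F : List V → M) (c : ℤ) (T : List (ℤ × List V)) :
    evT F (T.map (fun x => (c * x.1, x.2))) = c • evT F T := by
  induction T with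
  | nil => rw [List.map_nil, evT_nil, smul_zero]
  | cons x T ih => rw [List.map_cons, evT_cons, evT_cons, ih, smul_add, mul_smul]

lemma evT_relabel (F : List V' → M) (g : List V → List V') (T : List (ℤ × List V)) :
    evT F (T.map (fun x => (x.1, g x.2))) = evT (fun l => F (g l)) T := by
  unfold evT
  rw [List.map_map]
  rfl

lemma bd_simplex (l : List V) : bd (simplex l) = evT simplex (bdT l) := by
  induction l with
  | nil => rw [simplex_nil, bd_one]; rfl
  | cons v l ih =>
    rw [simplex_cons, bd_gen_mul, ih, bdT, evT_cons, one_smul, sub_eq_add_neg]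
    congr 1
    have h := evT_map (-(LinearMap.mulLeft ℤ (gen v))) (simplex (V := V)) (bdT l)
    have h1 : (-(LinearMap.mulLeft ℤ (gen v : Ext V))) (evT simplex (bdT l)) =
        -(gen v * evT simplex (bdT l)) := rfl
    rw [← h1, h]
    unfold evT
    rw [List.map_map]
    congr 1
    refine List.map_inj_left.2 (fun x _ => ?_)
    show x.1 • -(gen v * simplex x.2) = (-x.1) • simplex (v :: x.2)
    rw [simplex_cons, smul_neg, neg_smul]

lemma bdT_map (g : V → V') (l : List V) :
    bdT (l.map g) = (bdT l).map (fun x => (x.1, x.2.map g)) := by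
  induction l with
  | nil => rfl
  | cons v l ih =>
    rw [List.map_cons, bdT, bdT, List.map_cons, ih, List.map_map, List.map_map]
    congr 1

lemma bdT_sub {l : List V} {x : ℤ × List V} (hx : x ∈ bdT l) :
    x.2.Sublist l ∧ x.2.length + 1 = l.length := by
  induction l generalizing x with
  | nil => exact absurd hx (by simp [bdT])
  | cons v l ih =>
    rw [bdT, List.mem_cons, List.mem_map] at hx
    rcases hx with rfl | ⟨y, hy, rfl⟩
    · exact ⟨List.sublist_cons_self v l, by simp⟩
    · obtain ⟨h1, h2⟩ := ih hy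
      exact ⟨h1.cons_cons v, by simp only [List.length_cons]; omega⟩

end bdT

/-! ### norms as a function of the type -/

open Classical in
/-- the norm of a matching with given types -/
noncomputable def tau (g : List ℕ) : Ext (Finset (Fin 14)) :=
  if h : ∃ l : List (Finset (Fin 14)), ML univ l ∧ l.map idx = g then NL (simplex h.choose) else 0

theorem NL_tau {l : List (Finset (Fin 14))} (h : ML univ l) : NL (simplex l) = tau (l.map idx) := by
  have hex : ∃ l' : List (Finset (Fin 14)), ML univ l' ∧ l'.map idx = l.map idx := ⟨l, h, rfl⟩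
  unfold tau
  rw [dif_pos hex]
  exact NL_eq h hex.choose_spec.1 hex.choose_spec.2.symm

theorem tau_mem {d : ℤ} (g : List ℕ) (hd : (g.length : ℤ) = d + 1) : tau g ∈ CM univ d := by
  unfold tau
  split_ifs with h
  · refine NL_mem h.choose_spec.1 ?_
    have := congrArg List.length h.choose_spec.2
    rw [List.length_map] at this
    rw [this]; exact hd
  · exact Submodule.zero_mem _

theorem ML_sub {W : Finset (Fin 14)} {l l' : List (Finset (Fin 14))} (h : ML W l)
    (hs : l'.Sublist l) : ML W l' := ⟨fun e he => h.1 e (hs.subset he), h.2.sublist hs⟩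

theorem bd_NL_simplex {l : List (Finset (Fin 14))} (h : ML univ l) :
    bd (NL (simplex l)) = evT tau (bdT (l.map idx)) := by
  rw [bd_NL, bd_simplex, evT_map, bdT_map, evT_relabel]
  exact evT_congr (fun x hx => NL_tau (ML_sub h (bdT_sub hx).1))

/-! ### the functional -/

/-- entries of the packed table of binomial coefficients -/
def BB (t k : ℕ) : ℕ := (BT >>> (17 * (5 * t + k))) % 131072

/-- the position of a list in the table -/
def rkk : ℕ → List ℕ → ℕ
  | _, [] => 0
  | k, t :: l => BB t k + rkk (k + 1) l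

/-- value of the cocycle -/
def fL (l : List ℕ) : ℕ := (FT >>> (3 * rkk 0 l)) % 8

/-- the functional on the exterior algebra -/
noncomputable def fN : Ext ℕ →ₗ[ℤ] ℤ :=
  (Finsupp.linearCombination ℤ (fun S : Finset ℕ => (fL (S.sort (· ≤ ·)) : ℤ))) ∘ₗ
    (toExt (V := ℕ)).symm.toLinearMap

theorem fN_simplex {l : List ℕ} (h : l.Pairwise (· < ·)) : fN (simplex l) = fL l := by
  have hn : l.Nodup := h.imp (fun hab => ne_of_lt hab)
  have hs : l.toFinset.sort (· ≤ ·) = l := by
    rw [List.toFinset_sort (· ≤ ·) hn]
    exact h.imp (fun hab => le_of_lt hab)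
  have e : simplex l = toExt (Finsupp.single l.toFinset (1 : ℤ)) := by
    rw [toExt_single, hs]
  rw [e]
  unfold fN
  rw [LinearMap.comp_apply]
  show (Finsupp.linearCombination ℤ _) (toExt.symm (toExt _)) = _
  rw [LinearEquiv.symm_apply_apply, Finsupp.linearCombination_single, one_smul, hs]

/-- evaluation on the boundary of a sorted list -/
theorem fN_bd {l : List ℕ} (h : l.Pairwise (· < ·)) :
    fN (bd (simplex l)) = evT (fun m => (fL m : ℤ)) (bdT l) := by
  rw [bd_simplex, evT_map]
  exact evT_congr (fun x hx => fN_simplex (h.sublist (bdT_sub hx).1))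

/-! ### enumeration of the lists of types with degrees at most two -/

/-- entries of the packed table of degrees -/
def inc (t : ℕ) : ℕ := (INC >>> (21 * t)) % 2097152

/-- all octal digits (which are at most 4) are at most 2 -/
def allOk (d : ℕ) : Bool := Nat.beq (d &&& 1198372) 0 && Nat.beq (d &&& (d >>> 1) &&& 299593) 0

def fl5 (a b c d e : ℕ) : ℕ := (FT >>> (3 * (BB a 0 + BB b 1 + BB c 2 + BB d 3 + BB e 4))) % 8

/-- the cocycle condition -/
def test : List ℕ → Bool
  | [a, b, c, d, e, g] => Nat.beq ((fl5 b c d e g + 4 * fl5 a c d e g + fl5 a b d e g +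
      4 * fl5 a b c e g + fl5 a b c d g + 4 * fl5 a b c d e) % 5) 0
  | _ => true

noncomputable def chk (ts : List ℕ) : ℕ → List ℕ → ℕ → Bool :=
  List.rec (motive := fun _ => ℕ → List ℕ → ℕ → Bool)
    (fun k acc _ => cond (Nat.beq k 0) (test acc) true)
    (fun t _ ih k acc d => cond (Nat.beq k 0) (test acc)
      (cond (cond (allOk (d + inc t)) (ih (k - 1) (t :: acc) (d + inc t)) true) (ih k acc d) false))
    ts

theorem chk_cons (t : ℕ) (ts : List ℕ) (k : ℕ) (acc : List ℕ) (d : ℕ) :
    chk (t :: ts) k acc d = cond (Nat.beq k 0) (test acc)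
      (cond (cond (allOk (d + inc t)) (chk ts (k - 1) (t :: acc) (d + inc t)) true)
        (chk ts k acc d) false) := rfl

theorem chk_nil (k : ℕ) (acc : List ℕ) (d : ℕ) :
    chk [] k acc d = cond (Nat.beq k 0) (test acc) true := rfl

theorem chk_sound (ts : List ℕ) : ∀ (k : ℕ) (acc : List ℕ), chk ts k acc (acc.map inc).sum = true →
    ∀ s : List ℕ, s.Sublist ts → s.length = k →
    (∀ l', l' <:+ (s.reverse ++ acc) → allOk (l'.map inc).sum = true) →
    test (s.reverse ++ acc) = true := by
  induction ts with
  | nil =>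
    intro k acc h s hs hk _
    rw [List.sublist_nil] at hs
    subst hs
    simp only [List.length_nil] at hk
    subst hk
    rw [chk_nil] at h
    simpa using h
  | cons t ts ih =>
    intro k acc h s hs hk hall
    rw [chk_cons] at h
    rcases k with _ | k
    · have : s = [] := List.length_eq_zero_iff.1 hk
      subst this
      simpa using h
    · have hb : Nat.beq (k + 1) 0 = false := rfl
      rw [hb, cond_false] at h
      have e1 : (acc.map inc).sum + inc t = ((t :: acc).map inc).sum := by
        rw [List.map_cons, List.sum_cons, add_comm]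
      rw [e1] at h
      cases h1 : cond (allOk ((t :: acc).map inc).sum)
          (chk ts (k + 1 - 1) (t :: acc) ((t :: acc).map inc).sum) true
      · rw [h1] at h; simp at h
      · rw [h1, cond_true] at h
        cases hs with
        | cons _ hs' => exact ih (k + 1) acc h s hs' hk hall
        | @cons_cons s' _ _ hs' =>
          rw [List.reverse_cons, List.append_assoc, List.singleton_append] at hall ⊢
          have h2 : allOk ((t :: acc).map inc).sum = true := hall _ (List.suffix_append _ _)
          rw [h2, cond_true] at h1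
          exact ih k (t :: acc) h1 s' hs' (by simpa using hk) hall

/-- degree of a coded type at `i` -/
def dgc (i t : ℕ) : ℕ := cond (t.testBit i) (cond (Nat.beq t (2 ^ i)) 2 1) 0

theorem dgc_enc : ∀ (τ : Finset (Fin 7)) (i : Fin 7),
    dgc i (Pool.Agent.H933R3.enc τ) = dg i τ := by decide +kernel

theorem enc_mem : ∀ a b : Fin 14, a ≠ b → idx {a, b} ∈ codes := by decide +kernel

theorem idx_mem {e : Finset (Fin 14)} (he : e.card = 2) : idx e ∈ codes := by
  obtain ⟨a, b, hab, rfl⟩ := card_eq_two.1 he
  exact enc_mem a b hab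

theorem inc_eq : ∀ t ∈ codes, inc t = dgc 0 t + 8 * dgc 1 t + 64 * dgc 2 t + 512 * dgc 3 t +
    4096 * dgc 4 t + 32768 * dgc 5 t + 262144 * dgc 6 t := by decide +kernel

theorem allOk_fin : ∀ a b c d e f g : Fin 3,
    allOk (a + 8 * b + 64 * c + 512 * d + 4096 * e + 32768 * f + 262144 * g) = true := by
  decide +kernel

theorem allOk_small (a : ℕ) (ha : a < 3) (b : ℕ) (hb : b < 3) (c : ℕ) (hc : c < 3) (d : ℕ)
    (hd : d < 3) (e : ℕ) (he : e < 3) (f : ℕ) (hf : f < 3) (g : ℕ) (hg : g < 3) :
    allOk (a + 8 * b + 64 * c + 512 * d + 4096 * e + 32768 * f + 262144 * g) = true :=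
  allOk_fin ⟨a, ha⟩ ⟨b, hb⟩ ⟨c, hc⟩ ⟨d, hd⟩ ⟨e, he⟩ ⟨f, hf⟩ ⟨g, hg⟩

theorem sum_inc (l : List ℕ) (h : ∀ t ∈ l, t ∈ codes) : (l.map inc).sum =
    (l.map (dgc 0)).sum + 8 * (l.map (dgc 1)).sum + 64 * (l.map (dgc 2)).sum +
    512 * (l.map (dgc 3)).sum + 4096 * (l.map (dgc 4)).sum + 32768 * (l.map (dgc 5)).sum +
    262144 * (l.map (dgc 6)).sum := by
  induction l with
  | nil => rfl
  | cons t l ih =>
    have h1 := inc_eq t (h t (by simp))
    have h2 := ih (fun t ht => h t (List.mem_cons_of_mem _ ht))
    simp only [List.map_cons, List.sum_cons]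
    omega

theorem allOk_of {l : List ℕ} (h : ∀ t ∈ l, t ∈ codes) (hd : ∀ i < 7, (l.map (dgc i)).sum ≤ 2) :
    allOk (l.map inc).sum = true := by
  rw [sum_inc l h]
  exact allOk_small _ (Nat.lt_succ_of_le (hd 0 (by norm_num))) _
    (Nat.lt_succ_of_le (hd 1 (by norm_num))) _ (Nat.lt_succ_of_le (hd 2 (by norm_num))) _
    (Nat.lt_succ_of_le (hd 3 (by norm_num))) _ (Nat.lt_succ_of_le (hd 4 (by norm_num))) _
    (Nat.lt_succ_of_le (hd 5 (by norm_num))) _ (Nat.lt_succ_of_le (hd 6 (by norm_num)))

theorem test_sound {l : List ℕ} (hl : l.length = 6) (h : test l = true) :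
    (5 : ℤ) ∣ evT (fun m => (fL m : ℤ)) (bdT l) := by
  match l, hl with
  | [a, b, c, d, e, g], _ =>
    have h1 : (fl5 b c d e g + 4 * fl5 a c d e g + fl5 a b d e g +
      4 * fl5 a b c e g + fl5 a b c d g + 4 * fl5 a b c d e) % 5 = 0 := Nat.eq_of_beq_eq_true h
    have e5 : ∀ a b c d e : ℕ, fl5 a b c d e = fL [a, b, c, d, e] := by
      intro a b c d e
      unfold fl5 fL
      simp only [rkk, add_zero, zero_add, Nat.reduceAdd, ← add_assoc]
    simp only [e5] at h1
    simp only [bdT, List.map_cons, List.map_nil, evT_cons, evT_nil, smul_eq_mul]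
    omega

theorem codes_sorted : codes.Pairwise (· > ·) := by decide

/-- the cocycle condition from the enumeration -/
theorem cocycle_sorted (hchk : chk codes 6 [] 0 = true) {l : List ℕ} (hl : l.length = 6)
    (hs : l.Pairwise (· < ·)) (hc : ∀ t ∈ l, t ∈ codes)
    (hd : ∀ i < 7, (l.map (dgc i)).sum ≤ 2) : (5 : ℤ) ∣ fN (bd (simplex l)) := by
  rw [fN_bd hs]
  apply test_sound hl
  have h1 := chk_sound codes 6 [] (by simpa using hchk) l.reverse ?_ (by simpa using hl) ?_
  · rw [List.reverse_reverse, List.append_nil] at h1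
    exact h1
  · -- sublist
    have hr : l.reverse.Pairwise (· > ·) := List.pairwise_reverse.2 hs
    refine List.sublist_of_subperm_of_pairwise ?_ hr codes_sorted
    apply List.subperm_of_subset
    · exact hr.imp (fun hab => ne_of_gt hab)
    · intro t ht
      exact hc t (List.mem_reverse.1 ht)
  · intro l' hl'
    rw [List.reverse_reverse, List.append_nil] at hl'
    have hsub : l'.Sublist l := hl'.sublist
    refine allOk_of (fun t ht => hc t (hsub.subset ht)) (fun i hi => ?_)
    refine le_trans ?_ (hd i hi)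
    exact (hsub.map (dgc i)).sum_le_sum (fun _ _ => Nat.zero_le _)

end Pool.Agent.N361.MT
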