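import Mathlib
import Pool.Agent.N361.MT.Func

set_option autoImplicit false
set_option linter.unusedSectionVars false

/-!
# The chain whose boundary is divisible by five
-/

namespace Pool.Agent.N361.MT

open Finset Pool.Agent.H742R3.Mat

/-! ### collecting terms -/

abbrev TL : Type := List (ℤ × List ℕ)

/-- lexicographic comparison -/
def ltL : List ℕ → List ℕ → Bool
  | [], [] => false
  | [], _ :: _ => true
  | _ :: _, [] => false
  | a :: l, b :: l' => cond (Nat.blt a b) true (cond (Nat.beq a b) (ltL l l') false)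

def eqL : List ℕ → List ℕ → Bool
  | [], [] => true
  | a :: l, b :: l' => cond (Nat.beq a b) (eqL l l') false
  | _, _ => false

theorem eqL_eq : ∀ {l l' : List ℕ}, eqL l l' = true → l = l'
  | [], [], _ => rfl
  | a :: l, b :: l', h => by
    unfold eqL at h
    cases h1 : Nat.beq a b
    · rw [h1] at h; simp at h
    · rw [h1, cond_true] at h
      rw [Nat.eq_of_beq_eq_true h1, eqL_eq h]
  | [], _ :: _, h => by simp [eqL] at h
  | _ :: _, [], h => by simp [eqL] at h

noncomputable def mg (n : ℕ) : TL → TL → TL :=
  Nat.rec (motive := fun _ => TL → TL → TL) (fun a b => a ++ b)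
    (fun _ ih a b => List.casesOn (motive := fun _ => TL) a b (fun x a' =>
      List.casesOn (motive := fun _ => TL) b (x :: a') (fun y b' =>
        cond (ltL x.2 y.2) (x :: ih a' (y :: b'))
          (cond (eqL x.2 y.2) ((x.1 + y.1, x.2) :: ih a' b') (y :: ih (x :: a') b'))))) n

theorem mg_ev {M : Type} [AddCommGroup M] (F : List ℕ → M) (n : ℕ) : ∀ a b : TL,
    evT F (mg n a b) = evT F a + evT F b := by
  induction n with
  | zero => intro a b; exact evT_append F a b
  | succ n ih =>
    intro a b
    cases a with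
    | nil => show evT F b = _; rw [evT_nil, zero_add]
    | cons x a' =>
      cases b with
      | nil => show evT F (x :: a') = _; rw [evT_nil, add_zero]
      | cons y b' =>
        show evT F (cond (ltL x.2 y.2) (x :: mg n a' (y :: b'))
          (cond (eqL x.2 y.2) ((x.1 + y.1, x.2) :: mg n a' b') (y :: mg n (x :: a') b'))) = _
        cases h1 : ltL x.2 y.2
        · rw [cond_false]
          cases h2 : eqL x.2 y.2
          · rw [cond_false, evT_cons, ih, evT_cons F y b']
            abel
          · have h3 := eqL_eq h2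
            rw [cond_true, evT_cons, ih, evT_cons F y b', evT_cons F x a']
            simp only [← h3, add_smul]
            abel
        · rw [cond_true, evT_cons, ih, evT_cons F x a']
          abel

/-- one round of merging -/
noncomputable def pr : List TL → List TL
  | a :: b :: r => mg 5000 a b :: pr r
  | r => r

theorem pr_ev {M : Type} [AddCommGroup M] (F : List ℕ → M) : ∀ r : List TL,
    ((pr r).map (evT F)).sum = (r.map (evT F)).sum
  | [] => rfl
  | [_] => rfl
  | a :: b :: r => by
    rw [pr, List.map_cons, List.sum_cons, mg_ev, pr_ev F r, List.map_cons, List.map_cons,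
      List.sum_cons, List.sum_cons, add_assoc]

noncomputable def prs (n : ℕ) (r : List TL) : List TL := Nat.rec r (fun _ ih => pr ih) n

theorem prs_ev {M : Type} [AddCommGroup M] (F : List ℕ → M) (n : ℕ) (r : List TL) :
    ((prs n r).map (evT F)).sum = (r.map (evT F)).sum := by
  induction n with
  | zero => rfl
  | succ n ih => exact (pr_ev F _).trans ih

/-! ### decoding -/

/-- hexadecimal digits -/
def dig (v : ℕ) : List ℕ := [v / 16 ^ 11 % 16, v / 16 ^ 10 % 16, v / 16 ^ 9 % 16, v / 16 ^ 8 % 16,
  v / 16 ^ 7 % 16, v / 16 ^ 6 % 16, v / 16 ^ 5 % 16, v / 16 ^ 4 % 16, v / 16 ^ 3 % 16,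
  v / 16 ^ 2 % 16, v / 16 % 16, v % 16]

/-- list of edges -/
def ed : List ℕ → List (Finset (Fin 14))
  | a :: b :: r => {Fin.ofNat 14 a, Fin.ofNat 14 b} :: ed r
  | _ => []

/-- list of types -/
def ty : List ℕ → List ℕ
  | a :: b :: r => (2 ^ (a % 7) ||| 2 ^ (b % 7)) :: ty r
  | _ => []

theorem idx_pair : ∀ a b : Fin 14, idx {a, b} = 2 ^ ((a : ℕ) % 7) ||| 2 ^ ((b : ℕ) % 7) := by
  decide +kernel

theorem ed_idx : ∀ D : List ℕ, (∀ x ∈ D, x < 14) → (ed D).map idx = ty D
  | [], _ => rfl
  | [_], _ => rfl
  | a :: b :: r, h => by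
    have ha : a < 14 := h a (by simp)
    have hb : b < 14 := h b (by simp)
    rw [ed, ty, List.map_cons, ed_idx r (fun x hx => h x (by simp [hx])), idx_pair]
    simp only [Fin.ofNat, Nat.mod_eq_of_lt ha, Nat.mod_eq_of_lt hb]

theorem mem_ed : ∀ (D : List ℕ), (∀ x ∈ D, x < 14) → ∀ e ∈ ed D, ∀ y ∈ e, (y : ℕ) ∈ D
  | [], _, e, he => absurd he (by simp [ed])
  | [_], _, e, he => absurd he (by simp [ed])
  | a :: b :: r, h, e, he => by
    intro y hy
    have ha : a < 14 := h a (by simp)
    have hb : b < 14 := h b (by simp)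
    rw [ed, List.mem_cons] at he
    rcases he with rfl | he
    · rw [mem_insert, mem_singleton] at hy
      rcases hy with rfl | rfl
      · simp [Fin.ofNat, Nat.mod_eq_of_lt ha]
      · simp [Fin.ofNat, Nat.mod_eq_of_lt hb]
    · have := mem_ed r (fun x hx => h x (by simp [hx])) e he y hy
      simp [this]

theorem ed_ML : ∀ D : List ℕ, (∀ x ∈ D, x < 14) → D.Nodup → ML univ (ed D)
  | [], _, _ => ⟨fun e he => absurd he (by simp [ed]), List.Pairwise.nil⟩
  | [_], _, _ => ⟨fun e he => absurd he (by simp [ed]), List.Pairwise.nil⟩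
  | a :: b :: r, h, hn => by
    have ha : a < 14 := h a (by simp)
    have hb : b < 14 := h b (by simp)
    have hr : ∀ x ∈ r, x < 14 := fun x hx => h x (by simp [hx])
    rw [List.nodup_cons, List.nodup_cons] at hn
    have hab : a ≠ b := fun e => hn.1 (by simp [e])
    rw [ed, ML_cons]
    refine ⟨⟨?_, subset_univ _⟩, ?_, ed_ML r hr hn.2.2⟩
    · rw [card_pair]
      intro e
      have := congrArg Fin.val e
      simp only [Fin.ofNat, Nat.mod_eq_of_lt ha, Nat.mod_eq_of_lt hb] at this
      exact hab this
    · intro f hf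
      rw [Finset.disjoint_left]
      intro y hy hyf
      have h1 := mem_ed r hr f hf y hyf
      rw [mem_insert, mem_singleton] at hy
      rcases hy with rfl | rfl
      · simp only [Fin.ofNat, Nat.mod_eq_of_lt ha] at h1
        exact hn.1 (by simp [h1])
      · simp only [Fin.ofNat, Nat.mod_eq_of_lt hb] at h1
        exact hn.2.1 h1

/-! ### the checks -/

/-- all terms of the boundary -/
def TT : TL := WD.flatMap (fun x => (bdT (ty (dig x.2))).map (fun y => (x.1 * y.1, y.2)))

theorem WD_ok : ∀ x ∈ WD, (∀ y ∈ dig x.2, y < 14) ∧ (dig x.2).Nodup ∧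
    (ty (dig x.2)).Pairwise (· < ·) := by decide +kernel

/-- all coefficients are divisible by five, all lists have five elements -/
def div5 : TL → Bool
  | [] => true
  | x :: T => cond (decide (x.1 % 5 = 0) && decide (x.2.length = 5)) (div5 T) false

noncomputable def sorted : TL := (prs 11 (TT.map (fun x => [x]))).flatten

set_option maxRecDepth 100000 in
theorem div_ok : div5 sorted = true := by decide +kernel

/-- the pairing with the cocycle -/
def pairing : List (ℤ × ℕ) → ℤ
  | [] => 0
  | x :: W => x.1 * evT (fun m => (fL m : ℤ)) (bdT (ty (dig x.2))) + pairing W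

set_option maxRecDepth 100000 in
theorem pairing_ok : pairing WD = -15 := by decide +kernel

end Pool.Agent.N361.MT
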