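import Mathlib
import Pool.Agent.N361.MT.Func

set_option autoImplicit false

/-!
# The cocycle condition modulo five, by evaluation in the kernel
-/

namespace Pool.Agent.N361.MT

set_option maxRecDepth 100000 in
theorem chk_ok : chk codes 6 [] 0 = true := by decide +kernel

end Pool.Agent.N361.MT
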