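import Mathlib
import Pool.Agent.N361.MT.Chk
import Pool.Agent.N361.MT.Chain

set_option autoImplicit false
set_option linter.unusedSectionVars false

/-!
# Five-torsion in the homology of the matching complexes `M_n`, `n` even, in degree `(n - 6) / 2`
-/

namespace Pool.Agent.N361.MT

open Finset Pool.Agent.H742R3.Mat

lemma tors {V : Type} {c : ℤ} (hc : c ≠ 0) {x : Ext V} (h : c • x = 0) : x = 0 := by
  classical
  obtain ⟨lo⟩ : Nonempty (LinearOrder V) := ⟨linearOrderOfSTO (WellOrderingRel (α := V))⟩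
  apply (toExt (V := V)).symm.injective
  rw [map_zero]
  have h1 : c • (toExt (V := V)).symm x = 0 := by rw [← map_smul, h, map_zero]
  ext S
  have h2 := DFunLike.congr_fun h1 S
  rw [Finsupp.smul_apply, smul_eq_mul, Finsupp.zero_apply] at h2
  exact (mul_eq_zero.1 h2).resolve_left hc

lemma evT_flatten {M : Type} [AddCommGroup M] (F : List ℕ → M) (r : List TL) :
    evT F r.flatten = (r.map (evT F)).sum := by
  induction r with
  | nil => rfl
  | cons a r ih => rw [List.flatten_cons, evT_append, ih, List.map_cons, List.sum_cons]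

lemma evT_sorted {M : Type} [AddCommGroup M] (F : List ℕ → M) : evT F sorted = evT F TT := by
  unfold sorted
  rw [evT_flatten, prs_ev, List.map_map]
  have h : (evT F ∘ fun x : ℤ × List ℕ => [x]) = fun x => x.1 • F x.2 := by
    funext x
    show evT F [x] = _
    rw [evT_cons, evT_nil, add_zero]
  rw [h]
  rfl

/-- the chain -/
noncomputable def ww : Ext (Finset (Fin 14)) :=
  (WD.map (fun x => x.1 • NL (simplex (ed (dig x.2))))).sum

/-- the cycle -/
noncomputable def zz : Ext (Finset (Fin 14)) := evT tau (sorted.map (fun x => (x.1 / 5, x.2)))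

lemma WD_ML {x : ℤ × ℕ} (hx : x ∈ WD) : ML univ (ed (dig x.2)) :=
  ed_ML _ (WD_ok x hx).1 (WD_ok x hx).2.1

lemma bd_ww : bd ww = evT tau TT := by
  have key : ∀ W : List (ℤ × ℕ), (∀ x ∈ W, x ∈ WD) →
      bd ((W.map (fun x => x.1 • NL (simplex (ed (dig x.2))))).sum) =
      evT tau (W.flatMap (fun x => (bdT (ty (dig x.2))).map (fun y => (x.1 * y.1, y.2)))) := by
    intro W
    induction W with
    | nil => intro _; rw [List.map_nil, List.sum_nil, map_zero]; rfl
    | cons x W ih =>
      intro h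
      have hx := h x (by simp)
      rw [List.map_cons, List.sum_cons, map_add, ih (fun y hy => h y (List.mem_cons_of_mem _ hy)),
        List.flatMap_cons, evT_append, map_smul, bd_NL_simplex (WD_ML hx),
        ed_idx _ (WD_ok x hx).1, evT_scale]
  exact key WD (fun x hx => hx)

lemma div5_spec {M : Type} [AddCommGroup M] (F : List ℕ → M) : ∀ T : TL, div5 T = true →
    (5 : ℤ) • evT F (T.map (fun x => (x.1 / 5, x.2))) = evT F T ∧ ∀ x ∈ T, x.2.length = 5
  | [], _ => ⟨by rw [List.map_nil, evT_nil, smul_zero], fun x hx => absurd hx (by simp)⟩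
  | x :: T, h => by
    unfold div5 at h
    cases h1 : (decide (x.1 % 5 = 0) && decide (x.2.length = 5))
    · rw [h1] at h; simp at h
    · rw [h1, cond_true] at h
      rw [Bool.and_eq_true, decide_eq_true_iff, decide_eq_true_iff] at h1
      obtain ⟨h2, h3⟩ := div5_spec F T h
      constructor
      · rw [List.map_cons, evT_cons, evT_cons, smul_add, h2, smul_smul]
        have : 5 * (x.1 / 5) = x.1 := by omega
        rw [this]
      · intro y hy
        rcases List.mem_cons.1 hy with rfl | hy
        · exact h1.2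
        · exact h3 y hy

lemma five_zz : (5 : ℤ) • zz = bd ww := by
  rw [bd_ww, ← evT_sorted]
  exact (div5_spec tau sorted div_ok).1

lemma zz_mem : zz ∈ CM univ 4 := by
  unfold zz evT
  refine list_sum_mem ?_
  intro y hy
  rw [List.map_map, List.mem_map] at hy
  obtain ⟨x, hx, rfl⟩ := hy
  refine Submodule.smul_mem _ _ (tau_mem _ ?_)
  have := (div5_spec tau sorted div_ok).2 x hx
  show ((x.2).length : ℤ) = 4 + 1
  rw [this]
  norm_num

lemma ed_dig_length (v : ℕ) : (ed (dig v)).length = 6 := rfl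

lemma ww_mem : ww ∈ CM univ 5 := by
  unfold ww
  refine list_sum_mem ?_
  intro y hy
  rw [List.mem_map] at hy
  obtain ⟨x, hx, rfl⟩ := hy
  refine Submodule.smul_mem _ _ (NL_mem (WD_ML hx) ?_)
  rw [ed_dig_length]
  norm_num

lemma bd_bd' (x : Ext (Finset (Fin 14))) : bd (bd x) = 0 := bd_bd x

lemma bd_zz : bd zz = 0 := by
  apply tors (c := 5) (by norm_num)
  rw [← map_smul, five_zz, bd_bd]

/-! ### the cocycle -/

lemma simplex_of_not_nodup {V : Type} : ∀ l : List V, ¬ l.Nodup → simplex l = 0
  | [], h => absurd List.nodup_nil h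
  | v :: l, h => by
    rw [simplex_cons]
    by_cases hn : l.Nodup
    · have hv : v ∈ l := by
        by_contra hv
        exact h (List.nodup_cons.2 ⟨hv, hn⟩)
      obtain ⟨s, t, rfl⟩ := List.append_of_mem hv
      obtain ⟨c, hc⟩ := simplex_perm (List.perm_middle (a := v) (l₁ := s) (l₂ := t))
      rw [hc, simplex_cons, mul_smul_comm, ← mul_assoc, gen_sq, zero_mul, smul_zero]
    · rw [simplex_of_not_nodup l hn, mul_zero]

/-- the functional vanishes modulo five on boundaries -/
lemma cocycle_simplex {l : List (Finset (Fin 14))} (h : ML univ l) (hl : l.length = 6) :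
    (5 : ℤ) ∣ fN (bd (simplex (l.map idx))) := by
  by_cases hn : (l.map idx).Nodup
  · have hp : (l.map idx).Perm ((l.map idx).toFinset.sort (· ≤ ·)) := by
      rw [List.perm_ext_iff_of_nodup hn (Finset.sort_nodup _ _)]
      intro a
      simp
    obtain ⟨c, hc⟩ := simplex_perm hp
    rw [hc, map_smul, map_smul, smul_eq_mul]
    apply Dvd.dvd.mul_left
    refine cocycle_sorted chk_ok ?_ ?_ ?_ ?_
    · rw [← hp.length_eq, List.length_map, hl]
    · exact (Finset.sortedLT_sort _).pairwise
    · intro t ht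
      have ht' := hp.symm.subset ht
      rw [List.mem_map] at ht'
      obtain ⟨e, he, rfl⟩ := ht'
      exact idx_mem (h.1 e he).1
    · intro i hi
      have e1 : (((l.map idx).toFinset.sort (· ≤ ·)).map (dgc i)).sum =
          ((l.map idx).map (dgc i)).sum := (hp.symm.map (dgc i)).sum_eq
      rw [e1, List.map_map]
      refine le_trans (le_of_eq ?_) (deg_le h ⟨i, hi⟩)
      congr 1
      refine List.map_inj_left.2 (fun e _ => ?_)
      exact dgc_enc (e.image rr) ⟨i, hi⟩
  · rw [simplex_of_not_nodup _ hn, map_zero, map_zero]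
    exact dvd_zero _

lemma cocycle (y : Ext (Finset (Fin 14))) (hy : y ∈ CM univ 5) :
    (5 : ℤ) ∣ fN (bd (G2 idx y)) := by
  have h : CM univ 5 ≤ (Submodule.comap (fN ∘ₗ bd ∘ₗ (G2 idx).toLinearMap)
      (Ideal.span {(5 : ℤ)} : Submodule ℤ ℤ)) := by
    unfold CM spn
    rw [Submodule.span_le]
    rintro _ ⟨l, ⟨hl, hd⟩, rfl⟩
    show fN (bd (G2 idx (simplex l))) ∈ Ideal.span {(5 : ℤ)}
    rw [Ideal.mem_span_singleton, G2_simplex]
    exact cocycle_simplex hl (by omega)
  have := h hy
  exact Ideal.mem_span_singleton.1 this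

lemma G2_NL (x : Ext (Finset (Fin 14))) : G2 idx (NL x) = (128 : ℤ) • G2 idx x := by
  rw [NL_apply]
  unfold NN
  rw [map_sum]
  have h : ∀ k ∈ (univ : Finset (Fin 7 → Bool)), G2 idx (G2 (fl k) x) = G2 idx x := by
    intro k _
    rw [G2_comp]
    congr 2
    funext e
    exact idx_fl k e
  rw [sum_congr rfl h, sum_const, card_univ]
  simp

lemma fN_ww : fN (bd (G2 idx ww)) = -1920 := by
  have key : ∀ W : List (ℤ × ℕ), (∀ x ∈ W, x ∈ WD) →
      fN (bd (G2 idx ((W.map (fun x => x.1 • NL (simplex (ed (dig x.2))))).sum))) =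
      128 * pairing W := by
    intro W
    induction W with
    | nil => intro _; rw [List.map_nil, List.sum_nil, map_zero, map_zero, map_zero]; rfl
    | cons x W ih =>
      intro h
      have hx := h x (by simp)
      rw [List.map_cons, List.sum_cons, map_add, map_add, map_add,
        ih (fun y hy => h y (List.mem_cons_of_mem _ hy)), map_smul, map_smul, map_smul, G2_NL,
        map_smul, map_smul, G2_simplex, ed_idx _ (WD_ok x hx).1, fN_bd (WD_ok x hx).2.2, pairing]
      simp only [smul_eq_mul]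
      ring
  have := key WD (fun x hx => hx)
  rw [pairing_ok] at this
  exact this

lemma fN_zz : fN (G2 idx zz) = -384 := by
  have h : (5 : ℤ) * fN (G2 idx zz) = -1920 := by
    rw [← fN_ww, bd_G2, ← five_zz, map_smul, map_smul, smul_eq_mul]
  omega

/-- **Five-torsion in `H_4(M_14)`.** -/
theorem P5_14 : P5 (univ : Finset (Fin 14)) 4 := by
  refine ⟨zz, zz_mem, bd_zz, ⟨ww, ww_mem, five_zz.symm⟩, ?_⟩
  intro y hy he
  have h1 := cocycle y hy
  rw [bd_G2, he, fN_zz] at h1
  omega

theorem P5_even (m : ℕ) (hm : 7 ≤ m) : P5 (univ : Finset (Fin (2 * m))) ((m : ℤ) - 3) := by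
  induction m, hm using Nat.le_induction with
  | base =>
    have e : ((7 : ℕ) : ℤ) - 3 = 4 := by norm_num
    rw [e]
    exact P5_14
  | succ m hm ih =>
    have h := P5_step (2 * m) (by omega) _ ih
    have e : ((m + 1 : ℕ) : ℤ) - 3 = (m : ℤ) - 3 + 1 := by push_cast; ring
    rw [e]
    exact h

theorem order_five {A : Type} [AddCommGroup A] {x : A} (hx : x ≠ 0) (h : (5 : ℤ) • x = 0) :
    addOrderOf x = 5 := by
  have h5 : (5 : ℕ) • x = 0 := by
    rw [← natCast_zsmul]; exact h
  have : Fact (Nat.Prime 5) := ⟨by norm_num⟩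
  exact addOrderOf_eq_prime h5 hx

theorem main (m : ℕ) (hm : 7 ≤ m) [LinearOrder (Finset (Fin (2 * m)))] :
    ∃ x : Homology (Mn (2 * m)) ((m : ℤ) - 3), addOrderOf x = 5 := by
  obtain ⟨x, hx, h5⟩ := (Q5_iff (univ : Finset (Fin (2 * m))) ((m : ℤ) - 3)).2 (P5_even m hm)
  exact ⟨x, order_five hx h5⟩

end Pool.Agent.N361.MT
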